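import Mathlib

/-!
# Matrix convex sets, free extreme points, projections: definitions
-/

set_option autoImplicit false

namespace Pool.Agent.X109.MC

open Matrix Kronecker ComplexOrder

noncomputable section

/-- `g`-tuples of square complex matrices -/
abbrev Tup (g : ℕ) (κ : Type) := Fin g → Matrix κ κ ℂ

/-- a graded set of tuples, `K n` is the set of its elements of size `n` (only `n ≥ 1` matters) -/
abbrev MSet (g : ℕ) := (n : ℕ) → Set (Tup g (Fin n))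

/-- `X = ∑ V_i^* Y_i V_i` is a matrix convex combination, `∑ V_i^* V_i = 1` -/
def IsComb {g n : ℕ} {ι : Type} [Fintype ι] (X : Tup g (Fin n)) (s : ι → ℕ)
    (Y : (i : ι) → Tup g (Fin (s i))) (V : (i : ι) → Matrix (Fin (s i)) (Fin n) ℂ) : Prop :=
  (∑ i, (V i)ᴴ * V i = 1) ∧ ∀ j, X j = ∑ i, (V i)ᴴ * Y i j * V i

/-- the set of all matrix convex combinations of elements of `S` -/
def mconv {g : ℕ} (S : MSet g) : MSet g := fun n => {X |
  ∃ (ι : Type) (_ : Fintype ι) (s : ι → ℕ) (Y : (i : ι) → Tup g (Fin (s i)))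
    (V : (i : ι) → Matrix (Fin (s i)) (Fin n) ℂ),
    (∀ i, 0 < s i ∧ Y i ∈ S (s i)) ∧ IsComb X s Y V}

/-- `Y` is unitarily equivalent to `X` -/
def UEq {g m n : ℕ} (Y : Tup g (Fin m)) (X : Tup g (Fin n)) : Prop :=
  ∃ U : Matrix (Fin m) (Fin n) ℂ, Uᴴ * U = 1 ∧ U * Uᴴ = 1 ∧ ∀ j, Y j = U * X j * Uᴴ

/-- `Y` is unitarily equivalent to `X ⊕ Z` -/
def USum {g m n k : ℕ} (Y : Tup g (Fin m)) (X : Tup g (Fin n)) (Z : Tup g (Fin k)) : Prop :=
  ∃ U : Matrix (Fin m) (Fin n ⊕ Fin k) ℂ, Uᴴ * U = 1 ∧ U * Uᴴ = 1 ∧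
    ∀ j, Y j = U * fromBlocks (X j) 0 0 (Z j) * Uᴴ

/-- the free extreme points of `K` -/
def freeExt {g : ℕ} (K : MSet g) : MSet g := fun n => {X | 0 < n ∧ X ∈ K n ∧
  ∀ (ι : Type) (_ : Fintype ι) (s : ι → ℕ) (Y : (i : ι) → Tup g (Fin (s i)))
    (V : (i : ι) → Matrix (Fin (s i)) (Fin n) ℂ),
    (∀ i, 0 < s i ∧ Y i ∈ K (s i) ∧ V i ≠ 0) → IsComb X s Y V →
    ∀ i, UEq (Y i) X ∨ ∃ k, 0 < k ∧ ∃ Z ∈ K k, USum (Y i) X Z}

/-- the projection of `K` to the coordinates `e 0, …, e (h - 1)` -/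
def proj {g h : ℕ} (e : Fin h ↪ Fin g) (K : MSet g) : MSet h := fun n =>
  {X | ∃ Y ∈ K n, X = fun j => Y (e j)}

/-- the free spectrahedron of a tuple `A` of `d × d` matrices -/
def spec {g d : ℕ} (A : Tup g (Fin d)) : MSet g := fun _ =>
  {X | (∀ j, (X j).IsHermitian) ∧ (1 - ∑ j, A j ⊗ₖ X j).PosSemidef}

/-- closed, bounded and matrix convex sets of tuples of self-adjoint matrices -/
structure IsCompactConvex {g : ℕ} (K : MSet g) : Prop where
  herm : ∀ n, ∀ X ∈ K n, ∀ j, (X j).IsHermitian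
  convex : ∀ n, 0 < n → mconv K n ⊆ K n
  closed : ∀ n, IsClosed (K n)
  bounded : ∀ n, ∃ C : ℝ, ∀ X ∈ K n, ∀ j a b, ‖X j a b‖ ≤ C

/-! ### general facts -/

theorem subset_mconv {g n : ℕ} (S : MSet g) (hn : 0 < n) : S n ⊆ mconv S n := by
  intro X hX
  refine ⟨Unit, inferInstance, fun _ => n, fun _ => X, fun _ => 1, fun _ => ⟨hn, hX⟩, ?_, ?_⟩
  · simp
  · intro j; simp

/-- the matrix convex hull is closed under matrix convex combinations -/
theorem mconv_comb {g n : ℕ} {S : MSet g} {ι : Type} [Fintype ι] {X : Tup g (Fin n)} {s : ι → ℕ}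
    {Y : (i : ι) → Tup g (Fin (s i))} {V : (i : ι) → Matrix (Fin (s i)) (Fin n) ℂ}
    (hY : ∀ i, Y i ∈ mconv S (s i)) (h : IsComb X s Y V) : X ∈ mconv S n := by
  classical
  choose ι' hι' s' Y' V' h1 h2 using hY
  refine ⟨(i : ι) × ι' i, inferInstance, fun p => s' p.1 p.2, fun p => Y' p.1 p.2,
    fun p => V' p.1 p.2 * V p.1, fun p => h1 p.1 p.2, ?_, ?_⟩
  · rw [Fintype.sum_sigma, ← h.1]
    refine Finset.sum_congr rfl fun i _ => ?_
    have := (h2 i).1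
    calc ∑ j : ι' i, (V' i j * V i)ᴴ * (V' i j * V i)
        = (V i)ᴴ * (∑ j : ι' i, (V' i j)ᴴ * V' i j) * V i := by
          rw [Matrix.mul_sum, Matrix.sum_mul]
          refine Finset.sum_congr rfl fun j _ => ?_
          simp only [conjTranspose_mul, Matrix.mul_assoc]
      _ = (V i)ᴴ * V i := by rw [this, Matrix.mul_one]
  · intro c
    rw [Fintype.sum_sigma, h.2 c]
    refine Finset.sum_congr rfl fun i _ => ?_
    rw [(h2 i).2 c, Matrix.mul_sum, Matrix.sum_mul]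
    refine Finset.sum_congr rfl fun j _ => ?_
    simp only [conjTranspose_mul, Matrix.mul_assoc]

end

end Pool.Agent.X109.MC
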