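import Pool.Agent.X109.MC.Tmap

set_option autoImplicit false

namespace Pool.Agent.X109.MC

open Matrix Kronecker ComplexOrder

noncomputable section

theorem conj_mul_self_apply {m : ℕ} {δ : Type} (W : Matrix (Fin m) δ ℂ) (i j : δ) :
    (Wᴴ * W) i j = inner ℂ (WithLp.toLp 2 (fun a => W a i) : EuclideanSpace ℂ (Fin m))
      (WithLp.toLp 2 (fun a => W a j)) := by
  rw [EuclideanSpace.inner_eq_star_dotProduct, Matrix.mul_apply, dotProduct]
  refine Finset.sum_congr rfl fun a _ => ?_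
  simp [mul_comm]

/-- an isometry is the first part of a unitary matrix -/
theorem extend {m n : ℕ} (W : Matrix (Fin m) (Fin n) ℂ) (hW : Wᴴ * W = 1) :
    ∃ k, m = n + k ∧ ∃ U : Matrix (Fin m) (Fin n ⊕ Fin k) ℂ, Uᴴ * U = 1 ∧ U * Uᴴ = 1 ∧
      ∀ a i, U a (Sum.inl i) = W a i := by
  classical
  let w : Fin n → EuclideanSpace ℂ (Fin m) := fun i => WithLp.toLp 2 (fun a => W a i)
  have hw : Orthonormal ℂ w := by
    rw [orthonormal_iff_ite]
    intro i j
    rw [← conj_mul_self_apply, hW, one_apply]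
  have hle : n ≤ m := by
    have := hw.linearIndependent.fintype_card_le_finrank
    simpa using this
  obtain ⟨k, rfl⟩ := Nat.exists_eq_add_of_le hle
  refine ⟨k, rfl, ?_⟩
  let v : Fin n ⊕ Fin k → EuclideanSpace ℂ (Fin (n + k)) := Sum.elim w fun _ => 0
  have hv : Orthonormal ℂ ((Set.range Sum.inl).domRestrict v) := by
    rw [orthonormal_iff_ite]
    rintro ⟨_, i, rfl⟩ ⟨_, j, rfl⟩
    have := (orthonormal_iff_ite.1 hw) i j
    simpa [v, Set.domRestrict_apply, Subtype.ext_iff] using this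
  obtain ⟨b, hb⟩ := hv.exists_orthonormalBasis_extension_of_card_eq (by simp)
  let U : Matrix (Fin (n + k)) (Fin n ⊕ Fin k) ℂ := of fun a p => b p a
  have hU : Uᴴ * U = 1 := by
    ext p q
    rw [conj_mul_self_apply, one_apply, ← orthonormal_iff_ite.1 b.orthonormal p q]
    rfl
  refine ⟨U, hU, (mul_eq_one_comm_of_equiv finSumFinEquiv).1 hU, fun a i => ?_⟩
  have := hb (Sum.inl i) ⟨i, rfl⟩
  simp only [U, of_apply, this]
  rfl

def Irr {n : ℕ} (X : Tup 9 (Fin n)) : Prop :=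
  ∀ C : Matrix (Fin n) (Fin n) ℂ, C.IsHermitian → (∀ c, C * X c = X c * C) → ∃ r : ℂ, C = r • 1

theorem intertwine {n : ℕ} {X : Tup 9 (Fin n)} (hX : ∀ c, (X c).IsHermitian)
    (hT : T X * T X = 1) {ι : Type} [Fintype ι] {s : ι → ℕ}
    {Y : (i : ι) → Tup 9 (Fin (s i))} {V : (i : ι) → Matrix (Fin (s i)) (Fin n) ℂ}
    (hY : ∀ i, Y i ∈ K (s i)) (h : IsComb X s Y V) (i : ι) (c : Fin 9) :
    Y i c * V i = V i * X c := by
  obtain ⟨h1, h2⟩ := T_comb h
  set M := T X with hM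
  have hMh : Mᴴ = M := (T_herm hX).eq
  let D : (i : ι) → Matrix (Fin 3 × Fin (s i)) (Fin 3 × Fin n) ℂ := fun i =>
    T (Y i) * amp (V i) - amp (V i) * M
  have key : ∑ i, ((D i)ᴴ * D i + (amp (V i))ᴴ * (1 - T (Y i) * T (Y i)) * amp (V i)) = 0 := by
    have e : ∀ i, (D i)ᴴ * D i + (amp (V i))ᴴ * (1 - T (Y i) * T (Y i)) * amp (V i) =
        (amp (V i))ᴴ * amp (V i) - ((amp (V i))ᴴ * T (Y i) * amp (V i)) * M
          - M * ((amp (V i))ᴴ * T (Y i) * amp (V i)) + M * ((amp (V i))ᴴ * amp (V i)) * M := by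
      intro i
      have hTi : (T (Y i))ᴴ = T (Y i) := (T_herm (hY i).1).eq
      simp only [D, conjTranspose_sub, conjTranspose_mul, hTi, hMh, Matrix.mul_sub, Matrix.sub_mul,
        Matrix.mul_one, Matrix.mul_assoc]
      abel
    rw [Finset.sum_congr rfl fun i _ => e i, Finset.sum_add_distrib, Finset.sum_sub_distrib,
      Finset.sum_sub_distrib, ← Matrix.sum_mul, ← Matrix.mul_sum, ← Matrix.sum_mul, ← Matrix.mul_sum,
      ← h1, h2, Matrix.mul_one, hT]
    simp
  have htr : ∑ i, (((D i)ᴴ * D i).trace +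
      ((amp (V i))ᴴ * (1 - T (Y i) * T (Y i)) * amp (V i)).trace) = 0 := by
    have := congrArg trace key
    rw [trace_sum, trace_zero] at this
    simpa only [trace_add] using this
  have p1 : ∀ i, 0 ≤ ((D i)ᴴ * D i).trace := fun i =>
    (posSemidef_conjTranspose_mul_self _).trace_nonneg
  have p2 : ∀ i, 0 ≤ ((amp (V i))ᴴ * (1 - T (Y i) * T (Y i)) * amp (V i)).trace := fun i =>
    (((mem_K_iff.1 (hY i)).2).conjTranspose_mul_mul_same _).trace_nonneg
  have h3 := (Finset.sum_eq_zero_iff_of_nonneg fun i _ => add_nonneg (p1 i) (p2 i)).1 htr i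
    (Finset.mem_univ i)
  have h4 : ((D i)ᴴ * D i).trace = 0 := by
    refine le_antisymm ?_ (p1 i)
    calc ((D i)ᴴ * D i).trace ≤ _ := le_add_of_nonneg_right (p2 i)
      _ = 0 := h3
  have h5 : D i = 0 := trace_conjTranspose_mul_self_eq_zero_iff.1 h4
  have h6 : T (Y i) * amp (V i) = amp (V i) * M := sub_eq_zero.1 h5
  rw [T_mul_amp, hM, amp_mul_T] at h6
  exact congrFun (T_inj h6) c

theorem free_of_irr {n : ℕ} (hn : 0 < n) {X : Tup 9 (Fin n)} (hX : ∀ c, (X c).IsHermitian)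
    (hT : T X * T X = 1) (hI : Irr X) : X ∈ freeExt K n := by
  refine ⟨hn, mem_K_iff.2 ⟨hX, by rw [hT, sub_self]; exact PosSemidef.zero⟩, ?_⟩
  intro ι _ s Y V hY h i
  have hi := intertwine hX hT (fun i => (hY i).2.1) h i
  obtain ⟨hs, hYi, hV⟩ := hY i
  have hYh : ∀ c, (Y i c)ᴴ = Y i c := fun c => (hYi.1 c).eq
  have hi' : ∀ c, (V i)ᴴ * Y i c = X c * (V i)ᴴ := fun c => by
    have := congrArg conjTranspose (hi c)
    rwa [conjTranspose_mul, conjTranspose_mul, hYh, (hX c).eq] at this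
  obtain ⟨r, hr⟩ := hI ((V i)ᴴ * V i) (isHermitian_conjTranspose_mul_self _) fun c => by
    rw [Matrix.mul_assoc, ← hi c, ← Matrix.mul_assoc, hi' c, Matrix.mul_assoc]
  have hr0 : 0 ≤ r := by
    have := (posSemidef_conjTranspose_mul_self (V i)).diag_nonneg (i := ⟨0, hn⟩)
    rw [hr] at this
    simpa using this
  obtain ⟨t, ht⟩ : ∃ t : ℝ, r = t := by
    exact ⟨r.re, (Complex.ext rfl (by simpa using (Complex.le_def.1 hr0).2.symm))⟩
  subst ht
  have ht0 : 0 ≤ t := by exact_mod_cast hr0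
  have ht1 : t ≠ 0 := by
    rintro rfl
    apply hV
    rw [Complex.ofReal_zero, zero_smul] at hr
    exact conjTranspose_mul_self_eq_zero.1 hr
  have htp : 0 < t := lt_of_le_of_ne ht0 (Ne.symm ht1)
  let a : ℂ := ((Real.sqrt t)⁻¹ : ℝ)
  let W : Matrix (Fin (s i)) (Fin n) ℂ := a • V i
  have ha : star a * a * t = 1 := by
    simp only [a, Complex.star_def, Complex.conj_ofReal]
    rw [← Complex.ofReal_mul, ← Complex.ofReal_mul, ← Complex.ofReal_one]
    congr 1
    rw [← mul_inv, Real.mul_self_sqrt ht0, inv_mul_cancel₀ ht1]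
  have hW : Wᴴ * W = 1 := by
    simp only [W, conjTranspose_smul, Matrix.smul_mul, Matrix.mul_smul, hr, smul_smul]
    rw [← mul_assoc, mul_comm a, ha, one_smul]
  have hWi : ∀ c, Y i c * W = W * X c := fun c => by
    simp only [W, Matrix.mul_smul, Matrix.smul_mul, hi c]
  have hWi' : ∀ c, Wᴴ * Y i c = X c * Wᴴ := fun c => by
    have := congrArg conjTranspose (hWi c)
    rwa [conjTranspose_mul, conjTranspose_mul, hYh, (hX c).eq] at this
  obtain ⟨k, hk, U, hU1, hU2, hU3⟩ := extend W hW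
  rcases Nat.eq_zero_or_pos k with rfl | hk0
  · left
    have hWW : W * Wᴴ = 1 := (mul_eq_one_comm_of_equiv (finCongr (by omega))).1 hW
    exact ⟨W, hW, hWW, fun c => by rw [← hWi c, Matrix.mul_assoc, hWW, Matrix.mul_one]⟩
  · right
    let U2 : Matrix (Fin (s i)) (Fin k) ℂ := U.submatrix id Sum.inr
    have hU : U = fromCols W U2 := by
      ext a (b | b)
      · simp [hU3]
      · simp [U2]
    have hUU : Uᴴ * U = fromBlocks (Wᴴ * W) (Wᴴ * U2) (U2ᴴ * W) (U2ᴴ * U2) := by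
      rw [hU, conjTranspose_fromCols_eq_fromRows_conjTranspose, fromRows_mul_fromCols]
    rw [hU1, ← fromBlocks_one, fromBlocks_inj] at hUU
    obtain ⟨-, e2, e3, e4⟩ := hUU
    refine ⟨k, hk0, fun c => U2ᴴ * Y i c * U2, ?_, U, hU1, hU2, fun c => ?_⟩
    · refine K_convex k ⟨Unit, inferInstance, fun _ => s i, fun _ => Y i, fun _ => U2,
        fun _ => ⟨hs, hYi⟩, ?_, fun c => ?_⟩
      · simpa using e4.symm
      · simp
    · have : Uᴴ * Y i c * U = fromBlocks (X c) 0 0 (U2ᴴ * Y i c * U2) := by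
        rw [hU, conjTranspose_fromCols_eq_fromRows_conjTranspose, fromRows_mul,
          fromRows_mul_fromCols]
        congr 1
        · rw [hWi' c, Matrix.mul_assoc, hW, Matrix.mul_one]
        · rw [hWi' c, Matrix.mul_assoc, ← e2, Matrix.mul_zero]
        · rw [Matrix.mul_assoc, hWi c, ← Matrix.mul_assoc, ← e3, Matrix.zero_mul]
      rw [← this]
      calc Y i c = (U * Uᴴ) * Y i c * (U * Uᴴ) := by rw [hU2, Matrix.one_mul, Matrix.mul_one]
        _ = _ := by simp only [Matrix.mul_assoc]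

end

end Pool.Agent.X109.MC
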