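import Pool.Agent.X109.MC.Free

set_option autoImplicit false
set_option linter.unusedSimpArgs false

namespace Pool.Agent.X109.MC

open Matrix Kronecker ComplexOrder

noncomputable section

/-- a tuple with nontrivial commutant splits -/
theorem split {n : ℕ} (hn : 0 < n) {X : Tup 9 (Fin n)}
    {C : Matrix (Fin n) (Fin n) ℂ} (hC : C.IsHermitian) (hcomm : ∀ c, C * X c = X c * C)
    (hne : ¬ ∃ r : ℂ, C = r • 1) :
    ∃ (s : Bool → ℕ) (W : (b : Bool) → Matrix (Fin n) (Fin (s b)) ℂ),
      (∀ b, 0 < s b ∧ s b < n) ∧ (∀ b, (W b)ᴴ * W b = 1) ∧ (∑ b, W b * (W b)ᴴ = 1) ∧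
      ∀ b c, (W b * (W b)ᴴ) * X c = X c * (W b * (W b)ᴴ) := by
  classical
  let lam : Fin n → ℝ := hC.eigenvalues
  let U : Matrix (Fin n) (Fin n) ℂ := (hC.eigenvectorUnitary : Matrix (Fin n) (Fin n) ℂ)
  have hU1 : Uᴴ * U = 1 := by
    have := hC.eigenvectorUnitary.2
    rw [mem_unitaryGroup_iff'] at this
    exact this
  have hU2 : U * Uᴴ = 1 := by
    have := hC.eigenvectorUnitary.2
    rw [mem_unitaryGroup_iff] at this
    exact this
  have hsp : C = U * diagonal (fun i => (lam i : ℂ)) * Uᴴ := by
    have := hC.spectral_theorem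
    rw [Unitary.conjStarAlgAut_apply] at this
    exact this
  have hUC : Uᴴ * C = diagonal (fun i => (lam i : ℂ)) * Uᴴ := by
    rw [hsp, ← Matrix.mul_assoc, ← Matrix.mul_assoc, hU1, Matrix.one_mul]
  have hCU : C * U = U * diagonal (fun i => (lam i : ℂ)) := by
    rw [hsp, Matrix.mul_assoc, hU1, Matrix.mul_one]
  let i0 : Fin n := ⟨0, hn⟩
  let q : Fin n → Bool := fun i => decide (lam i = lam i0)
  have hq : ∃ i1, q i1 = false := by
    by_contra hcon
    push Not at hcon
    apply hne
    refine ⟨lam i0, ?_⟩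
    have : diagonal (fun i => (lam i : ℂ)) = (lam i0 : ℂ) • (1 : Matrix (Fin n) (Fin n) ℂ) := by
      ext i j
      have hi := hcon i
      simp only [q, ne_eq, Bool.not_eq_false, decide_eq_true_eq] at hi
      by_cases hij : i = j
      · subst hij; simp [hi]
      · simp [hij]
    rw [hsp, this, Matrix.mul_smul, Matrix.mul_one, Matrix.smul_mul, hU2]
  let σ : Bool → Type := fun b => {i : Fin n // q i = b}
  let s : Bool → ℕ := fun b => Fintype.card {i : Fin n // q i = b}
  let e : (b : Bool) → Fin (s b) ≃ {i : Fin n // q i = b} := fun b => (Fintype.equivFin _).symm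
  let P : Bool → Matrix (Fin n) (Fin n) ℂ := fun b => diagonal fun i => if q i = b then 1 else 0
  let S : (b : Bool) → Matrix (Fin n) (Fin (s b)) ℂ := fun b =>
    (1 : Matrix (Fin n) (Fin n) ℂ).submatrix id (fun i => ((e b i : {i : Fin n // q i = b}) : Fin n))
  have hS1 : ∀ b, (S b)ᴴ * S b = 1 := by
    intro b
    ext i j
    simp only [S, Matrix.mul_apply, conjTranspose_apply, submatrix_apply, id, one_apply]
    simp [Subtype.ext_iff.symm, eq_comm]
  have hS2 : ∀ b, S b * (S b)ᴴ = P b := by
    intro b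
    ext i j
    simp only [S, P, Matrix.mul_apply, conjTranspose_apply, submatrix_apply, id, one_apply,
      diagonal_apply]
    rw [Equiv.sum_comp (e b) (fun x : {i : Fin n // q i = b} =>
      (if i = (x : Fin n) then (1 : ℂ) else 0) * star (if j = (x : Fin n) then (1 : ℂ) else 0))]
    by_cases hi : q i = b
    · rw [Finset.sum_eq_single (⟨i, hi⟩ : {i : Fin n // q i = b})]
      · simp [hi, eq_comm]
      · intro x _ hx
        have : i ≠ x := fun h => hx (Subtype.ext h.symm)
        simp [this]
      · simp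
    · rw [Finset.sum_eq_zero]
      · simp [hi]
      · intro x _
        have : i ≠ x := fun h => hi (h ▸ x.2)
        simp [this]
  have hP : ∑ b, P b = 1 := by
    ext i j
    simp only [P, Fintype.sum_bool, Matrix.add_apply, diagonal_apply, one_apply]
    by_cases hij : i = j
    · subst hij
      cases h : q i <;> simp
    · simp [hij]
  refine ⟨s, fun b => U * S b, ?_, ?_, ?_, ?_⟩
  · intro b
    have hex : ∀ b, ∃ i, q i = b := by
      intro b
      cases b
      · exact hq
      · exact ⟨i0, by simp [q]⟩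
    constructor
    · obtain ⟨i, hi⟩ := hex b
      exact Fintype.card_pos_iff.2 ⟨⟨i, hi⟩⟩
    · obtain ⟨i, hi⟩ := hex (!b)
      have : Fintype.card {i : Fin n // q i = b} < Fintype.card (Fin n) :=
        Fintype.card_subtype_lt (x := i) (by rw [hi]; cases b <;> simp)
      simpa using this
  · intro b
    rw [conjTranspose_mul, Matrix.mul_assoc, ← Matrix.mul_assoc Uᴴ, hU1, Matrix.one_mul, hS1]
  · have : ∀ b, (U * S b) * (U * S b)ᴴ = U * P b * Uᴴ := fun b => by
      rw [conjTranspose_mul, ← hS2]; simp only [Matrix.mul_assoc]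
    rw [Finset.sum_congr rfl fun b _ => this b, ← Matrix.sum_mul, ← Matrix.mul_sum, hP,
      Matrix.mul_one, hU2]
  · intro b c
    have e1 : (U * S b) * (U * S b)ᴴ = U * P b * Uᴴ := by
      rw [conjTranspose_mul, ← hS2]; simp only [Matrix.mul_assoc]
    rw [e1]
    set D := Uᴴ * X c * U with hD
    have hX : X c = U * D * Uᴴ := by
      rw [hD]
      calc X c = (U * Uᴴ) * X c * (U * Uᴴ) := by rw [hU2, Matrix.one_mul, Matrix.mul_one]
        _ = _ := by simp only [Matrix.mul_assoc]
    have hDc : diagonal (fun i => (lam i : ℂ)) * D = D * diagonal (fun i => (lam i : ℂ)) := by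
      rw [hD]
      calc diagonal (fun i => (lam i : ℂ)) * (Uᴴ * X c * U)
          = (diagonal (fun i => (lam i : ℂ)) * Uᴴ) * X c * U := by simp only [Matrix.mul_assoc]
        _ = Uᴴ * (C * X c) * U := by rw [← hUC]; simp only [Matrix.mul_assoc]
        _ = Uᴴ * X c * (C * U) := by rw [hcomm c]; simp only [Matrix.mul_assoc]
        _ = _ := by rw [hCU]; simp only [Matrix.mul_assoc]
    have hD0 : ∀ i j, q i ≠ q j → D i j = 0 := by
      intro i j hij
      have h1 := congrFun (congrFun hDc i) j
      rw [diagonal_mul, mul_diagonal] at h1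
      have h2 : ((lam i : ℂ) - lam j) * D i j = 0 := by linear_combination h1
      rcases mul_eq_zero.1 h2 with h3 | h3
      · exfalso
        apply hij
        have : lam i = lam j := by exact_mod_cast sub_eq_zero.1 h3
        simp [q, this]
      · exact h3
    have hDP : P b * D = D * P b := by
      ext i j
      rw [diagonal_mul, mul_diagonal]
      by_cases hij : q i = q j
      · rw [hij]; ring
      · rw [hD0 i j hij]; simp
    rw [hX]
    calc U * P b * Uᴴ * (U * D * Uᴴ) = U * (P b * ((Uᴴ * U) * D)) * Uᴴ := by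
          simp only [Matrix.mul_assoc]
      _ = U * (D * P b) * Uᴴ := by rw [hU1, Matrix.one_mul, hDP]
      _ = U * (D * ((Uᴴ * U) * P b)) * Uᴴ := by rw [hU1, Matrix.one_mul]
      _ = _ := by simp only [Matrix.mul_assoc]

/-- the tuples of the symmetries are in the hull of the free extreme points -/
theorem sym_mem : ∀ (n : ℕ), 0 < n → ∀ X : Tup 9 (Fin n), (∀ c, (X c).IsHermitian) →
    T X * T X = 1 → X ∈ mconv (freeExt K) n := by
  intro n
  induction n using Nat.strong_induction_on with
  | _ n ih =>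
  intro hn X hX hT
  by_cases hI : Irr X
  · exact subset_mconv _ hn (free_of_irr hn hX hT hI)
  · unfold Irr at hI
    push Not at hI
    obtain ⟨C, hC, hcomm, hne⟩ := hI
    obtain ⟨s, W, hs, hW1, hW2, hW3⟩ := split hn hC hcomm (by push Not; exact hne)
    refine mconv_comb (ι := Bool) (s := s) (Y := fun b c => (W b)ᴴ * X c * W b)
      (V := fun b => (W b)ᴴ) (fun b => ?_) ⟨?_, fun c => ?_⟩
    · refine ih (s b) (hs b).2 (hs b).1 _ (fun c => ?_) ?_
      · rw [IsHermitian, conjTranspose_mul, conjTranspose_mul, conjTranspose_conjTranspose,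
          (hX c).eq, Matrix.mul_assoc]
      · have e1 : T (fun c => (W b)ᴴ * X c * W b) = (amp (W b))ᴴ * T X * amp (W b) := by
          rw [amp_conj, amp_mul_T, T_mul_amp]
        have e2 : amp (W b * (W b)ᴴ) * T X = T X * amp (W b * (W b)ᴴ) := by
          rw [amp_mul_T, T_mul_amp]
          exact congrArg T (funext fun c => hW3 b c)
        rw [← amp_mul_amp, ← amp_conj] at e2
        have e3 : (amp (W b))ᴴ * amp (W b) = 1 := by
          rw [amp_conj, amp_mul_amp, hW1, amp_one]
        rw [e1]
        calc (amp (W b))ᴴ * T X * amp (W b) * ((amp (W b))ᴴ * T X * amp (W b))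
            = (amp (W b))ᴴ * (T X * (amp (W b) * (amp (W b))ᴴ)) * T X * amp (W b) := by
              simp only [Matrix.mul_assoc]
          _ = ((amp (W b))ᴴ * amp (W b)) * ((amp (W b))ᴴ * (T X * T X) * amp (W b)) := by
              rw [← e2]; simp only [Matrix.mul_assoc]
          _ = 1 := by rw [hT, e3, Matrix.mul_one, e3, Matrix.one_mul]
    · simpa using hW2
    · simp only [conjTranspose_conjTranspose]
      calc X c = (∑ b, W b * (W b)ᴴ) * X c := by rw [hW2, Matrix.one_mul]
        _ = ∑ b, (W b * (W b)ᴴ) * X c := by rw [Matrix.sum_mul]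
        _ = _ := by
          refine Finset.sum_congr rfl fun b _ => ?_
          calc (W b * (W b)ᴴ) * X c = W b * ((W b)ᴴ * W b) * ((W b)ᴴ * X c) := by
                rw [hW1, Matrix.mul_one, Matrix.mul_assoc]
            _ = (W b * (W b)ᴴ) * ((W b * (W b)ᴴ) * X c) := by simp only [Matrix.mul_assoc]
            _ = (W b * (W b)ᴴ) * (X c * (W b * (W b)ᴴ)) := by rw [hW3]
            _ = _ := by simp only [Matrix.mul_assoc]

theorem convex_mconv {g n : ℕ} (S : MSet g) : Convex ℝ (mconv S n) := by
  intro X hX Y hY a b ha hb hab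
  refine mconv_comb (ι := Bool) (s := fun _ => n) (Y := fun i => cond i X Y)
    (V := fun i => cond i (((Real.sqrt a : ℝ) : ℂ) • (1 : Matrix (Fin n) (Fin n) ℂ))
      (((Real.sqrt b : ℝ) : ℂ) • 1)) (fun i => ?_) ⟨?_, fun c => ?_⟩
  · cases i
    · exact hY
    · exact hX
  · simp only [Fintype.sum_bool, cond_true, cond_false, conjTranspose_smul, conjTranspose_one,
      Matrix.smul_mul, Matrix.mul_smul, Matrix.mul_one, smul_smul, Complex.star_def,
      Complex.conj_ofReal, ← Complex.ofReal_mul, Real.mul_self_sqrt ha, Real.mul_self_sqrt hb]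
    rw [← add_smul, ← Complex.ofReal_add, hab]
    simp
  · simp only [Fintype.sum_bool, cond_true, cond_false, conjTranspose_smul, conjTranspose_one,
      Matrix.smul_mul, Matrix.mul_smul, Matrix.mul_one, Matrix.one_mul, smul_smul,
      Complex.star_def, Complex.conj_ofReal, ← Complex.ofReal_mul, Real.mul_self_sqrt ha,
      Real.mul_self_sqrt hb]
    rfl

/-- every element of `K` is in the hull of the free extreme points -/
theorem K_sub (n : ℕ) (hn : 0 < n) : K n ⊆ mconv (freeExt K) n := by
  classical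
  intro X hX
  obtain ⟨hXh, hXc⟩ := mem_K_iff.1 hX
  have hM := T_herm hXh
  let lam : Fin 3 × Fin n → ℝ := hM.eigenvalues
  let U : Matrix (Fin 3 × Fin n) (Fin 3 × Fin n) ℂ :=
    (hM.eigenvectorUnitary : Matrix (Fin 3 × Fin n) (Fin 3 × Fin n) ℂ)
  have hU1 : Uᴴ * U = 1 := by
    have := hM.eigenvectorUnitary.2
    rw [mem_unitaryGroup_iff'] at this
    exact this
  have hU2 : U * Uᴴ = 1 := by
    have := hM.eigenvectorUnitary.2
    rw [mem_unitaryGroup_iff] at this
    exact this
  have hsp : T X = U * diagonal (fun i => (lam i : ℂ)) * Uᴴ := by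
    have := hM.spectral_theorem
    rw [Unitary.conjStarAlgAut_apply] at this
    exact this
  have hlam : ∀ i, lam i * lam i ≤ 1 := by
    intro i
    have h1 := (hXc.conjTranspose_mul_mul_same U).diag_nonneg (i := i)
    have h2 : Uᴴ * (1 - T X * T X) * U = 1 - diagonal (fun i => (lam i : ℂ) * lam i) := by
      rw [Matrix.mul_sub, Matrix.sub_mul, Matrix.mul_one, hU1, ← diagonal_mul_diagonal, hsp]
      congr 1
      calc Uᴴ * (U * diagonal (fun i => (lam i : ℂ)) * Uᴴ *
            (U * diagonal (fun i => (lam i : ℂ)) * Uᴴ)) * U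
          = (Uᴴ * U) * diagonal (fun i => (lam i : ℂ)) * (Uᴴ * U) *
            diagonal (fun i => (lam i : ℂ)) * (Uᴴ * U) := by simp only [Matrix.mul_assoc]
        _ = _ := by simp only [hU1, Matrix.mul_one, Matrix.one_mul]
    rw [h2, Matrix.sub_apply, one_apply_eq, diagonal_apply_eq, ← Complex.ofReal_mul] at h1
    have := (Complex.le_def.1 h1).1
    rw [Complex.sub_re, Complex.one_re, Complex.ofReal_re, Complex.zero_re] at this
    linarith
  let G : (Fin 3 × Fin n → ℝ) →ₗ[ℝ] Tup 9 (Fin n) :=
    { toFun := fun d => Linv (U * diagonal (fun i => (d i : ℂ)) * Uᴴ)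
      map_add' := fun x y => by
        have : diagonal (fun i => (((x + y) i : ℝ) : ℂ)) =
            diagonal (fun i => (x i : ℂ)) + diagonal (fun i => (y i : ℂ)) := by
          rw [diagonal_add]; congr 1; funext i; simp
        rw [this, Matrix.mul_add, Matrix.add_mul]
        funext c; ext a b
        simp only [Linv, of_apply, Pi.add_apply, Matrix.add_apply]
        ring
      map_smul' := fun r x => by
        have : diagonal (fun i => (((r • x) i : ℝ) : ℂ)) =
            r • diagonal (fun i => (x i : ℂ)) := by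
          ext i j
          by_cases hij : i = j
          · subst hij; simp
          · simp [hij]
        rw [this, Matrix.mul_smul, Matrix.smul_mul]
        funext c; ext a b
        simp only [Linv, of_apply, Pi.smul_apply, Matrix.smul_apply, RingHom.id_apply,
          Complex.real_smul]
        ring }
  have hGX : G lam = X := by
    change Linv (U * diagonal (fun i => (lam i : ℂ)) * Uᴴ) = X
    rw [← hsp, Linv_T]
  have hmem : lam ∈ convexHull ℝ (Set.pi Set.univ fun _ : Fin 3 × Fin n => ({-1, 1} : Set ℝ)) := by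
    rw [convexHull_pi]
    intro i _
    rw [convexHull_pair, segment_eq_Icc (by norm_num)]
    constructor <;> nlinarith [hlam i]
  have hmem2 : X ∈ convexHull ℝ (G '' (Set.pi Set.univ fun _ => ({-1, 1} : Set ℝ))) := by
    rw [← LinearMap.image_convexHull, ← hGX]
    exact Set.mem_image_of_mem _ hmem
  refine convexHull_min ?_ (convex_mconv _) hmem2
  rintro _ ⟨d, hd, rfl⟩
  have hd2 : ∀ i, (d i : ℂ) * d i = 1 := by
    intro i
    rcases hd i (Set.mem_univ i) with h | h
    · rw [h]; simp
    · rw [Set.mem_singleton_iff.1 h]; simp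
  have hTG : T (G d) = U * diagonal (fun i => (d i : ℂ)) * Uᴴ := T_Linv _
  refine sym_mem n hn _ (fun c => Linv_herm ?_ c) ?_
  · rw [IsHermitian, conjTranspose_mul, conjTranspose_mul, conjTranspose_conjTranspose,
      diagonal_conjTranspose, Matrix.mul_assoc]
    congr 3
    funext i
    simp
  · rw [hTG]
    calc U * diagonal (fun i => (d i : ℂ)) * Uᴴ * (U * diagonal (fun i => (d i : ℂ)) * Uᴴ)
        = U * (diagonal (fun i => (d i : ℂ)) * (Uᴴ * U) * diagonal (fun i => (d i : ℂ))) * Uᴴ := by
          simp only [Matrix.mul_assoc]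
      _ = 1 := by
          rw [hU1, Matrix.mul_one, diagonal_mul_diagonal]
          simp only [hd2, diagonal_one, Matrix.mul_one, hU2]

theorem freeExt_sub {g n : ℕ} (K : MSet g) : freeExt K n ⊆ K n := fun _ h => h.2.1

theorem mconv_mono {g n : ℕ} {S S' : MSet g} (h : ∀ n, S n ⊆ S' n) : mconv S n ⊆ mconv S' n := by
  rintro X ⟨ι, i1, s, Y, V, hY, hc⟩
  exact ⟨ι, i1, s, Y, V, fun i => ⟨(hY i).1, h _ (hY i).2⟩, hc⟩

theorem K_eq (n : ℕ) (hn : 0 < n) : K n = mconv (freeExt K) n :=
  Set.Subset.antisymm (K_sub n hn) ((mconv_mono fun _ => freeExt_sub K).trans (K_convex n))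

end

end Pool.Agent.X109.MC
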