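import Pool.Agent.X109.MC.Topo
import Pool.Agent.X109.MC.Hull

set_option autoImplicit false
set_option linter.unusedSimpArgs false

namespace Pool.Agent.X109.MC

open Matrix Kronecker ComplexOrder

noncomputable section

/-- the visible coordinates -/
def e : Fin 4 ↪ Fin 9 :=
  ⟨![f (0, 1), f (1, 0), f (0, 2), f (2, 0)], by
    intro i j h
    fin_cases i <;> fin_cases j <;> first | rfl | (exfalso; revert h; simp [f])⟩

theorem e0 : e 0 = f (0, 1) := rfl
theorem e1 : e 1 = f (1, 0) := rfl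
theorem e2 : e 2 = f (0, 2) := rfl
theorem e3 : e 3 = f (2, 0) := rfl

theorem trace_fromBlocks' {α β : Type} [Fintype α] [Fintype β] (A : Matrix α α ℂ)
    (B : Matrix α β ℂ) (C : Matrix β α ℂ) (D : Matrix β β ℂ) :
    (fromBlocks A B C D).trace = A.trace + D.trace := by
  simp [trace, Fintype.sum_sum_type]

/-- the block matrix with first row `0, C1, C2` -/
def blk {κ : Type} (C1 C2 : Matrix κ κ ℂ) : Matrix (Fin 3 × κ) (Fin 3 × κ) ℂ := of fun p q =>
  if p.1 = 0 ∧ q.1 = 1 then C1 p.2 q.2 else if p.1 = 0 ∧ q.1 = 2 then C2 p.2 q.2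
  else if p.1 = 1 ∧ q.1 = 0 then C1ᴴ p.2 q.2 else if p.1 = 2 ∧ q.1 = 0 then C2ᴴ p.2 q.2 else 0

theorem blk_herm {κ : Type} (C1 C2 : Matrix κ κ ℂ) : (blk C1 C2).IsHermitian := by
  ext ⟨j, a⟩ ⟨k, b⟩
  fin_cases j <;> fin_cases k <;> simp [blk]

theorem blk_psd {κ : Type} [Fintype κ] [DecidableEq κ] (C1 C2 : Matrix κ κ ℂ)
    (h : (1 - (C1 * C1ᴴ + C2 * C2ᴴ)).PosSemidef) : (1 + blk C1 C2).PosSemidef := by
  let G1 : Matrix κ (Fin 3 × κ) ℂ := of fun a p =>
    if p.1 = 0 then C1ᴴ a p.2 else if p.1 = 1 then (1 : Matrix κ κ ℂ) a p.2 else 0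
  let G2 : Matrix κ (Fin 3 × κ) ℂ := of fun a p =>
    if p.1 = 0 then C2ᴴ a p.2 else if p.1 = 2 then (1 : Matrix κ κ ℂ) a p.2 else 0
  let E : Matrix (Fin 3 × κ) κ ℂ := of fun p b => if p.1 = 0 then (1 : Matrix κ κ ℂ) p.2 b else 0
  have key : 1 + blk C1 C2 = G1ᴴ * G1 + G2ᴴ * G2 + E * (1 - (C1 * C1ᴴ + C2 * C2ᴴ)) * Eᴴ := by
    have hE : ∀ (R : Matrix κ κ ℂ) (j k : Fin 3) (a b : κ), (E * R * Eᴴ) (j, a) (k, b) =
        if j = 0 ∧ k = 0 then R a b else 0 := by
      intro R j k a b
      rw [Matrix.mul_apply]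
      simp only [Matrix.mul_apply, E, of_apply, conjTranspose_apply]
      fin_cases j <;> fin_cases k <;> simp [one_apply]
    ext ⟨j, a⟩ ⟨k, b⟩
    rw [Matrix.add_apply, Matrix.add_apply, Matrix.add_apply, hE]
    fin_cases j <;> fin_cases k <;>
    simp [blk, G1, G2, Matrix.mul_apply, one_apply, Prod.ext_iff]
    all_goals
      by_cases hab : a = b
      · simp [hab]
      · simp [hab, Ne.symm hab]
  rw [key]
  exact ((posSemidef_conjTranspose_mul_self _).add (posSemidef_conjTranspose_mul_self _)).add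
    (h.mul_mul_conjTranspose_same _)

theorem blk_neg {κ : Type} (C1 C2 : Matrix κ κ ℂ) : blk (-C1) (-C2) = - blk C1 C2 := by
  ext ⟨j, a⟩ ⟨k, b⟩
  fin_cases j <;> fin_cases k <;> simp [blk]

theorem blk_psd' {κ : Type} [Fintype κ] [DecidableEq κ] (C1 C2 : Matrix κ κ ℂ)
    (h : (1 - (C1 * C1ᴴ + C2 * C2ᴴ)).PosSemidef) : (1 - blk C1 C2).PosSemidef := by
  have := blk_psd (-C1) (-C2) (by simpa using h)
  rwa [blk_neg, ← sub_eq_add_neg] at this

theorem T_submatrix {κ κ' : Type} (X : Tup 9 κ) (p : κ' → κ) :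
    T (fun c => (X c).submatrix p p) = (T X).submatrix (Prod.map id p) (Prod.map id p) := by
  ext ⟨j, a⟩ ⟨k, b⟩
  simp only [submatrix_apply, Prod.map, id, T_apply]

theorem mem_K_of_blk {m : ℕ} {κ : Type} [Fintype κ] [DecidableEq κ] (p : Fin m ≃ κ)
    (C1 C2 : Matrix κ κ ℂ) (h : (1 - (C1 * C1ᴴ + C2 * C2ᴴ)).PosSemidef) :
    (fun c => (Linv (blk C1 C2) c).submatrix p p) ∈ K m := by
  have hp : Function.Injective (Prod.map id p : Fin 3 × Fin m → Fin 3 × κ) :=
    Function.Injective.prodMap Function.injective_id p.injective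
  refine ⟨fun c => (Linv_herm (blk_herm C1 C2) c).submatrix _, ?_, ?_⟩
  · rw [T_submatrix, T_Linv]
    have : 1 - (blk C1 C2).submatrix (Prod.map id p) (Prod.map id p) =
        (1 - blk C1 C2).submatrix (Prod.map id p) (Prod.map id p) := by
      rw [submatrix_sub]; simp only [Pi.sub_apply]; rw [submatrix_one _ hp]
    rw [this]
    exact (blk_psd' C1 C2 h).submatrix _
  · rw [T_submatrix, T_Linv]
    have : 1 + (blk C1 C2).submatrix (Prod.map id p) (Prod.map id p) =
        (1 + blk C1 C2).submatrix (Prod.map id p) (Prod.map id p) := by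
      rw [submatrix_add]; simp only [Pi.add_apply]; rw [submatrix_one _ hp]
    rw [this]
    exact (blk_psd C1 C2 h).submatrix _

/-- the visible part of an element of `K` -/
theorem row_contr {n : ℕ} {X : Tup 9 (Fin n)} (hX : X ∈ K n) :
    ∃ B1 B2 : Matrix (Fin n) (Fin n) ℂ, (1 - (B1 * B1ᴴ + B2 * B2ᴴ)).PosSemidef ∧
      X (e 0) = star ω • B1 + ω • B1ᴴ ∧ X (e 1) = star ω • B1ᴴ + ω • B1 ∧
      X (e 2) = star ω • B2 + ω • B2ᴴ ∧ X (e 3) = star ω • B2ᴴ + ω • B2 := by
  obtain ⟨h1, h2⟩ := mem_K_iff.1 hX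
  have hM := T_herm h1
  set M := T X with hMdef
  have hXc : ∀ j k a b, X (f (j, k)) a b = star ω * M (j, a) (k, b) + ω * M (k, a) (j, b) := by
    intro j k a b
    conv_lhs => rw [← Linv_T X]
    simp only [Linv, Equiv.symm_apply_apply, of_apply, hMdef]
  let Bk : Fin 3 → Matrix (Fin n) (Fin n) ℂ := fun k => of fun a b => M (0, a) (k, b)
  have hconj : ∀ k a b, (Bk k)ᴴ a b = M (k, a) (0, b) := by
    intro k a b
    simp only [Bk, conjTranspose_apply, of_apply]
    exact hM.apply _ _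
  refine ⟨Bk 1, Bk 2, ?_, ?_, ?_, ?_, ?_⟩
  · have h3 := (h2.submatrix (fun a : Fin n => ((0 : Fin 3), a))).add
      (posSemidef_self_mul_conjTranspose (Bk 0))
    convert h3 using 1
    ext a b
    have e1 : (M * M) (0, a) (0, b) = (Bk 0 * (Bk 0)ᴴ) a b + (Bk 1 * (Bk 1)ᴴ) a b +
        (Bk 2 * (Bk 2)ᴴ) a b := by
      simp only [Matrix.mul_apply, hconj, Fintype.sum_prod_type, Fin.sum_univ_three]
      rfl
    simp only [Matrix.sub_apply, Matrix.add_apply, submatrix_apply, e1]
    have e2 : (1 : Matrix (Fin 3 × Fin n) (Fin 3 × Fin n) ℂ) (0, a) (0, b) =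
        (1 : Matrix (Fin n) (Fin n) ℂ) a b := by
      simp [one_apply]
    rw [e2]
    ring
  all_goals
    ext a b
    simp only [Matrix.add_apply, Matrix.smul_apply, smul_eq_mul, hconj, e0, e1, e2, e3, hXc]
    rfl

theorem no_free {n : ℕ} {Z : Tup 4 (Fin n)} (hZ : Z ∈ freeExt (proj e K) n) : False := by
  obtain ⟨hn, ⟨X, hX, rfl⟩, hfree⟩ := hZ
  obtain ⟨B1, B2, hB, x0, x1, x2, x3⟩ := row_contr hX
  -- a vector in the kernel of the row
  obtain ⟨u, hu0, hu⟩ : ∃ u : Fin n ⊕ Fin n → ℂ, u ≠ 0 ∧ (fromCols B1 B2) *ᵥ u = 0 := by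
    have : LinearMap.ker (fromCols B1 B2).mulVecLin ≠ ⊥ := by
      apply LinearMap.ker_ne_bot_of_finrank_lt
      simp only [Module.finrank_fintype_fun_eq_card, Fintype.card_sum, Fintype.card_fin]
      omega
    obtain ⟨u, h1, h2⟩ := Submodule.exists_mem_ne_zero_of_ne_bot this
    exact ⟨u, h2, by simpa using h1⟩
  let N : ℝ := ∑ i, ‖u i‖ ^ 2
  have hN : 0 < N := by
    obtain ⟨i, hi⟩ := Function.ne_iff.1 hu0
    refine Finset.sum_pos' (fun _ _ => by positivity) ⟨i, Finset.mem_univ i, ?_⟩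
    have : 0 < ‖u i‖ := norm_pos_iff.2 hi
    positivity
  let t : ℂ := ((Real.sqrt N)⁻¹ : ℝ)
  have ht : t * star t * N = 1 := by
    simp only [t, Complex.star_def, Complex.conj_ofReal]
    rw [← Complex.ofReal_mul, ← Complex.ofReal_mul, ← Complex.ofReal_one]
    congr 1
    rw [← mul_inv, Real.mul_self_sqrt hN.le, inv_mul_cancel₀ hN.ne']
  let r1 : Matrix (Fin 1) (Fin n) ℂ := of fun _ b => star (t * u (Sum.inl b))
  let r2 : Matrix (Fin 1) (Fin n) ℂ := of fun _ b => star (t * u (Sum.inr b))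
  have hker : B1 * r1ᴴ + B2 * r2ᴴ = 0 := by
    ext a b
    have := congrFun hu a
    rw [fromCols_mulVec] at this
    simp only [Pi.add_apply, mulVec, dotProduct, Function.comp, Pi.zero_apply] at this
    simp only [Matrix.add_apply, Matrix.mul_apply, r1, r2, conjTranspose_apply, of_apply,
      star_star, Matrix.zero_apply]
    calc _ = t * (∑ x, B1 a x * u (Sum.inl x) + ∑ x, B2 a x * u (Sum.inr x)) := by
          rw [mul_add, Finset.mul_sum, Finset.mul_sum]
          congr 1 <;> exact Finset.sum_congr rfl fun _ _ => by ring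
      _ = 0 := by rw [this, mul_zero]
  have hone : r1 * r1ᴴ + r2 * r2ᴴ = 1 := by
    ext a b
    have hab : a = b := Subsingleton.elim _ _
    subst hab
    simp only [Matrix.add_apply, Matrix.mul_apply, r1, r2, conjTranspose_apply, of_apply,
      star_star, one_apply_eq]
    rw [← ht]
    have hNs : (N : ℂ) = ∑ x, star (u (Sum.inl x)) * u (Sum.inl x) +
        ∑ x, star (u (Sum.inr x)) * u (Sum.inr x) := by
      simp only [N, Fintype.sum_sum_type]
      push_cast
      congr 1 <;>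
      · refine Finset.sum_congr rfl fun x _ => ?_
        rw [Complex.star_def, mul_comm, Complex.mul_conj, Complex.normSq_eq_norm_sq]
        push_cast; rfl
    rw [hNs, mul_add, Finset.mul_sum, Finset.mul_sum]
    congr 1 <;>
    · refine Finset.sum_congr rfl fun x _ => ?_
      rw [star_mul']; ring
  let κ := Fin n ⊕ Fin 1
  let C1 : Matrix (Fin n ⊕ Fin 1) (Fin n ⊕ Fin 1) ℂ := fromBlocks B1 0 r1 0
  let C2 : Matrix (Fin n ⊕ Fin 1) (Fin n ⊕ Fin 1) ℂ := fromBlocks B2 0 r2 0
  have hker' : r1 * B1ᴴ + r2 * B2ᴴ = 0 := by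
    have := congrArg conjTranspose hker
    simpa using this
  have hC : (1 - (C1 * C1ᴴ + C2 * C2ᴴ)).PosSemidef := by
    have : 1 - (C1 * C1ᴴ + C2 * C2ᴴ) =
        fromBlocks (1 - (B1 * B1ᴴ + B2 * B2ᴴ)) 0 0 (0 : Matrix (Fin 1) (Fin 1) ℂ) := by
      simp only [C1, C2, fromBlocks_conjTranspose, fromBlocks_multiply, fromBlocks_add,
        conjTranspose_zero, Matrix.mul_zero, add_zero, Matrix.zero_mul, hker, hker', hone]
      rw [← fromBlocks_one, sub_eq_add_neg, fromBlocks_neg, fromBlocks_add]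
      simp [sub_eq_add_neg]
    rw [this, psd_blocks]
    exact ⟨hB, PosSemidef.zero⟩
  let p : Fin (n + 1) ≃ Fin n ⊕ Fin 1 := finSumFinEquiv.symm
  let Y' : Tup 9 (Fin n ⊕ Fin 1) := Linv (blk C1 C2)
  have hYK : (fun c => (Y' c).submatrix p p) ∈ K (n + 1) := mem_K_of_blk p C1 C2 hC
  let y : Fin 4 → Matrix (Fin 1) (Fin n) ℂ := ![star ω • r1, ω • r1, star ω • r2, ω • r2]
  have hY' : ∀ c, Y' (e c) = fromBlocks (X (e c)) (y c)ᴴ (y c) 0 := by
    have g0 : Y' (e 0) = star ω • C1 + ω • C1ᴴ := by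
      ext a b; simp [Y', Linv, e0, e1, e2, e3, blk]
    have g1 : Y' (e 1) = star ω • C1ᴴ + ω • C1 := by
      ext a b; simp [Y', Linv, e0, e1, e2, e3, blk]
    have g2 : Y' (e 2) = star ω • C2 + ω • C2ᴴ := by
      ext a b; simp [Y', Linv, e0, e1, e2, e3, blk]
    have g3 : Y' (e 3) = star ω • C2ᴴ + ω • C2 := by
      ext a b; simp [Y', Linv, e0, e1, e2, e3, blk]
    intro c
    fin_cases c
    · change Y' (e 0) = fromBlocks (X (e 0)) (star ω • r1)ᴴ (star ω • r1) 0
      rw [g0, x0]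
      simp only [C1, fromBlocks_conjTranspose, fromBlocks_smul, fromBlocks_add,
        conjTranspose_smul, star_star, conjTranspose_zero, smul_zero, add_zero, zero_add]
    · change Y' (e 1) = fromBlocks (X (e 1)) (ω • r1)ᴴ (ω • r1) 0
      rw [g1, x1]
      simp only [C1, fromBlocks_conjTranspose, fromBlocks_smul, fromBlocks_add,
        conjTranspose_smul, star_star, conjTranspose_zero, smul_zero, add_zero, zero_add]
    · change Y' (e 2) = fromBlocks (X (e 2)) (star ω • r2)ᴴ (star ω • r2) 0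
      rw [g2, x2]
      simp only [C2, fromBlocks_conjTranspose, fromBlocks_smul, fromBlocks_add,
        conjTranspose_smul, star_star, conjTranspose_zero, smul_zero, add_zero, zero_add]
    · change Y' (e 3) = fromBlocks (X (e 3)) (ω • r2)ᴴ (ω • r2) 0
      rw [g3, x3]
      simp only [C2, fromBlocks_conjTranspose, fromBlocks_smul, fromBlocks_add,
        conjTranspose_smul, star_star, conjTranspose_zero, smul_zero, add_zero, zero_add]
  let Y : Tup 4 (Fin (n + 1)) := fun c => (Y' (e c)).submatrix p p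
  have hYP : Y ∈ proj e K (n + 1) := ⟨_, hYK, rfl⟩
  let R0 : Matrix (Fin n ⊕ Fin 1) (Fin n) ℂ := fromRows (1 : Matrix (Fin n) (Fin n) ℂ) 0
  have hR0 : R0ᴴ = fromCols (1 : Matrix (Fin n) (Fin n) ℂ) (0 : Matrix (Fin n) (Fin 1) ℂ) := by
    simp [R0, conjTranspose_fromRows_eq_fromCols_conjTranspose]
  let V : Matrix (Fin (n + 1)) (Fin n) ℂ := R0.submatrix p id
  have hVV : Vᴴ * V = 1 := by
    have : Vᴴ * V = R0ᴴ * R0 := by
      simp only [V, conjTranspose_submatrix]
      rw [submatrix_mul_equiv]; rfl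
    rw [this, hR0]
    simp only [R0]
    rw [fromCols_mul_fromRows]
    simp
  have hVY : ∀ c, Vᴴ * Y c * V = X (e c) := by
    intro c
    have : Vᴴ * Y c * V = R0ᴴ * Y' (e c) * R0 := by
      simp only [V, Y, conjTranspose_submatrix]
      rw [submatrix_mul_equiv, submatrix_mul_equiv]; rfl
    rw [this, hY', hR0, fromCols_mul_fromBlocks]
    simp only [R0]
    rw [fromCols_mul_fromRows]
    simp
  have hV0 : V ≠ 0 := by
    intro h
    rw [h] at hVV
    have := congrFun (congrFun hVV ⟨0, hn⟩) ⟨0, hn⟩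
    simp at this
  have hcomb : IsComb (fun c => X (e c)) (fun _ : Unit => n + 1) (fun _ => Y) (fun _ => V) := by
    refine ⟨by simpa using hVV, fun c => ?_⟩
    simp [hVY]
  have htrY : ∀ c, (Y c).trace = (X (e c)).trace := by
    intro c
    have : (Y c).trace = (Y' (e c)).trace := by
      simp only [Y, trace, diag_apply, submatrix_apply]
      exact Equiv.sum_comp p fun i => Y' (e c) i i
    rw [this, hY', trace_fromBlocks']; simp
  have htrYY : ∀ c, (Y c * Y c).trace = (X (e c) * X (e c)).trace + 2 * (y c * (y c)ᴴ).trace := by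
    intro c
    have : (Y c * Y c).trace = (Y' (e c) * Y' (e c)).trace := by
      have h1 : Y c * Y c = (Y' (e c) * Y' (e c)).submatrix p p := by
        simp only [Y]; rw [submatrix_mul_equiv]
      rw [h1]
      simp only [trace, diag_apply, submatrix_apply]
      exact Equiv.sum_comp p fun i => (Y' (e c) * Y' (e c)) i i
    rw [this, hY', fromBlocks_multiply, trace_fromBlocks', trace_add, trace_add,
      trace_mul_comm (y c)ᴴ (y c)]
    simp; ring
  rcases hfree Unit inferInstance (fun _ => n + 1) (fun _ => Y) (fun _ => V)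
    (fun _ => ⟨Nat.succ_pos n, hYP, hV0⟩) hcomb () with ⟨U, hU1, hU2, -⟩ | ⟨k, hk, Z, -, U, hU1, hU2, hU⟩
  · have h1 : (U * Uᴴ).trace = (Uᴴ * U).trace := trace_mul_comm _ _
    rw [hU1, hU2, trace_one, trace_one, Fintype.card_fin, Fintype.card_fin] at h1
    have : n + 1 = n := by exact_mod_cast h1
    omega
  · have h1 : (U * Uᴴ).trace = (Uᴴ * U).trace := trace_mul_comm _ _
    rw [hU1, hU2, trace_one, trace_one, Fintype.card_fin, Fintype.card_sum, Fintype.card_fin,
      Fintype.card_fin] at h1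
    have hk1 : k = 1 := by
      have : n + 1 = n + k := by exact_mod_cast h1
      omega
    subst hk1
    have hZ0 : ∀ c, Z c = 0 := by
      intro c
      have h2 : (Y c).trace = (X (e c)).trace + (Z c).trace := by
        rw [hU c, trace_mul_comm, ← Matrix.mul_assoc, hU1, Matrix.one_mul, trace_fromBlocks']
      rw [htrY] at h2
      have h3 : (Z c).trace = 0 := by linear_combination -h2
      ext a b
      have ha : a = 0 := Subsingleton.elim _ _
      have hb : b = 0 := Subsingleton.elim _ _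
      subst ha; subst hb
      simpa [trace] using h3
    have hy : ∀ c, y c = 0 := by
      intro c
      have h2 : (Y c * Y c).trace = (X (e c) * X (e c)).trace := by
        have : Y c * Y c = U * (fromBlocks (X (e c)) 0 0 (Z c) * fromBlocks (X (e c)) 0 0 (Z c)) *
            Uᴴ := by
          conv_lhs => rw [hU c]
          calc _ = U * (fromBlocks (X (e c)) 0 0 (Z c) * (Uᴴ * U) *
                fromBlocks (X (e c)) 0 0 (Z c)) * Uᴴ := by simp only [Matrix.mul_assoc]
            _ = _ := by rw [hU1, Matrix.mul_one]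
        rw [this, trace_mul_comm, ← Matrix.mul_assoc, hU1, Matrix.one_mul, fromBlocks_multiply,
          trace_fromBlocks', hZ0]
        simp
      rw [htrYY] at h2
      have h3 : (y c * (y c)ᴴ).trace = 0 := by linear_combination (1 / 2) * h2
      exact trace_mul_conjTranspose_self_eq_zero_iff.1 h3
    have hω : star ω ≠ 0 := by
      intro h
      have := ω_mul
      rw [h] at this
      norm_num at this
    have hr1 : r1 = 0 := (smul_eq_zero.1 (hy 0)).resolve_left hω
    have hr2 : r2 = 0 := (smul_eq_zero.1 (hy 2)).resolve_left hω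
    rw [hr1, hr2] at hone
    have := congrFun (congrFun hone 0) 0
    simp at this

end

end Pool.Agent.X109.MC
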