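import Pool.Agent.X109.MC.Defs

/-!
# The 9-tuple of coordinates of a self-adjoint 3 × 3 block matrix
-/

set_option autoImplicit false

namespace Pool.Agent.X109.MC

open Matrix Kronecker ComplexOrder

noncomputable section

def ω : ℂ := (1 + Complex.I) / 2

theorem ω_mul : ω * star ω = 1 / 2 := by
  unfold ω
  apply Complex.ext <;> simp <;> norm_num

theorem ω_sq : ω * ω + star ω * star ω = 0 := by
  unfold ω
  apply Complex.ext <;> simp <;> norm_num

theorem ω_norm : ‖ω‖ ≤ 1 := by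
  unfold ω
  rw [norm_div]
  have : ‖(1 : ℂ) + Complex.I‖ ≤ 2 := by
    refine (norm_add_le _ _).trans ?_
    simp; norm_num
  rw [div_le_iff₀ (by simp)]
  simpa using this

def f : Fin 3 × Fin 3 ≃ Fin 9 := finProdFinEquiv

/-- a Hermitian basis of the `3 × 3` matrices -/
def B (c : Fin 9) : Matrix (Fin 3) (Fin 3) ℂ := of fun j k =>
  (if f (j, k) = c then ω else 0) + (if f (k, j) = c then star ω else 0)

variable {κ κ' κ'' : Type}

def T (X : Fin 9 → Matrix κ κ' ℂ) : Matrix (Fin 3 × κ) (Fin 3 × κ') ℂ := ∑ c, B c ⊗ₖ X c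

theorem T_apply (X : Fin 9 → Matrix κ κ' ℂ) (j k : Fin 3) (a : κ) (b : κ') :
    T X (j, a) (k, b) = ω * X (f (j, k)) a b + star ω * X (f (k, j)) a b := by
  unfold T B
  simp only [Matrix.sum_apply, kroneckerMap_apply, of_apply, add_mul, ite_mul, zero_mul,
    Finset.sum_add_distrib, Finset.sum_ite_eq, Finset.mem_univ, if_true]

def amp (V : Matrix κ κ' ℂ) : Matrix (Fin 3 × κ) (Fin 3 × κ') ℂ :=
  (1 : Matrix (Fin 3) (Fin 3) ℂ) ⊗ₖ V

theorem amp_mul_T [Fintype κ'] (V : Matrix κ κ' ℂ) (X : Fin 9 → Matrix κ' κ'' ℂ) :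
    amp V * T X = T fun c => V * X c := by
  unfold amp T
  rw [Matrix.mul_sum]
  refine Finset.sum_congr rfl fun c _ => ?_
  rw [← mul_kronecker_mul, Matrix.one_mul]

theorem T_mul_amp [Fintype κ'] (V : Matrix κ' κ'' ℂ) (X : Fin 9 → Matrix κ κ' ℂ) :
    T X * amp V = T fun c => X c * V := by
  unfold amp T
  rw [Matrix.sum_mul]
  refine Finset.sum_congr rfl fun c _ => ?_
  rw [← mul_kronecker_mul, Matrix.mul_one]

theorem amp_mul_amp [Fintype κ'] (V : Matrix κ κ' ℂ) (W : Matrix κ' κ'' ℂ) :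
    amp V * amp W = amp (V * W) := by
  unfold amp
  rw [← mul_kronecker_mul, Matrix.mul_one]

theorem amp_one [DecidableEq κ] : amp (1 : Matrix κ κ ℂ) = 1 := by
  unfold amp; exact one_kronecker_one

theorem amp_conj (V : Matrix κ κ' ℂ) : (amp V)ᴴ = amp Vᴴ := by
  unfold amp
  rw [conjTranspose_kronecker, conjTranspose_one]

theorem amp_sum {ι : Type} (s : Finset ι) (V : ι → Matrix κ κ' ℂ) :
    amp (∑ i ∈ s, V i) = ∑ i ∈ s, amp (V i) := by
  ext ⟨j, a⟩ ⟨k, b⟩
  simp [amp, Matrix.sum_apply, Finset.mul_sum, kroneckerMap_apply]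

theorem T_sum {ι : Type} (s : Finset ι) (X : ι → Fin 9 → Matrix κ κ' ℂ) :
    T (fun c => ∑ i ∈ s, X i c) = ∑ i ∈ s, T (X i) := by
  ext ⟨j, a⟩ ⟨k, b⟩
  simp only [T_apply, Matrix.sum_apply, Finset.mul_sum, Finset.sum_add_distrib]

/-- recovering the coordinates -/
def Linv (M : Matrix (Fin 3 × κ) (Fin 3 × κ') ℂ) : Fin 9 → Matrix κ κ' ℂ := fun c => of fun a b =>
  star ω * M ((f.symm c).1, a) ((f.symm c).2, b) + ω * M ((f.symm c).2, a) ((f.symm c).1, b)

theorem Linv_T (X : Fin 9 → Matrix κ κ' ℂ) : Linv (T X) = X := by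
  funext c
  ext a b
  obtain ⟨⟨j, k⟩, rfl⟩ := f.surjective c
  simp only [Linv, Equiv.symm_apply_apply, of_apply, T_apply]
  linear_combination (2 * X (f (j, k)) a b) * ω_mul + X (f (k, j)) a b * ω_sq

theorem T_Linv (M : Matrix (Fin 3 × κ) (Fin 3 × κ') ℂ) : T (Linv M) = M := by
  ext ⟨j, a⟩ ⟨k, b⟩
  simp only [Linv, Equiv.symm_apply_apply, of_apply, T_apply]
  linear_combination (2 * M (j, a) (k, b)) * ω_mul + M (k, a) (j, b) * ω_sq

theorem T_inj {X Y : Fin 9 → Matrix κ κ' ℂ} (h : T X = T Y) : X = Y := by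
  rw [← Linv_T X, ← Linv_T Y, h]

theorem Linv_herm {M : Matrix (Fin 3 × κ) (Fin 3 × κ) ℂ} (h : M.IsHermitian) (c : Fin 9) :
    (Linv M c).IsHermitian := by
  ext a b
  simp only [Linv, conjTranspose_apply, of_apply, star_add, star_mul', star_star]
  rw [h.apply, h.apply]
  ring

theorem T_herm {X : Tup 9 κ} (h : ∀ c, (X c).IsHermitian) : (T X).IsHermitian := by
  ext ⟨j, a⟩ ⟨k, b⟩
  simp only [conjTranspose_apply, T_apply, star_add, star_mul', star_star]
  rw [(h _).apply, (h _).apply]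
  ring

/-- the `9`-tuples of coordinates of the self-adjoint contractions in `M_3(M_n)` -/
def K : MSet 9 := fun _ =>
  {X | (∀ c, (X c).IsHermitian) ∧ (1 - T X).PosSemidef ∧ (1 + T X).PosSemidef}

theorem T_comb {n : ℕ} {ι : Type} [Fintype ι] {X : Tup 9 (Fin n)} {s : ι → ℕ}
    {Y : (i : ι) → Tup 9 (Fin (s i))} {V : (i : ι) → Matrix (Fin (s i)) (Fin n) ℂ}
    (h : IsComb X s Y V) :
    T X = ∑ i, (amp (V i))ᴴ * T (Y i) * amp (V i) ∧ ∑ i, (amp (V i))ᴴ * amp (V i) = 1 := by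
  constructor
  · have : X = fun c => ∑ i, (V i)ᴴ * Y i c * V i := funext h.2
    rw [this, T_sum]
    refine Finset.sum_congr rfl fun i _ => ?_
    rw [amp_conj, amp_mul_T, T_mul_amp]
  · rw [← amp_one, ← h.1, amp_sum]
    refine Finset.sum_congr rfl fun i _ => ?_
    rw [amp_conj, amp_mul_amp]

theorem K_convex (n : ℕ) : mconv K n ⊆ K n := by
  rintro X ⟨ι, _, s, Y, V, hY, h⟩
  obtain ⟨h1, h2⟩ := T_comb h
  refine ⟨fun c => ?_, ?_, ?_⟩
  · rw [h.2 c, IsHermitian, conjTranspose_sum]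
    refine Finset.sum_congr rfl fun i _ => ?_
    rw [conjTranspose_mul, conjTranspose_mul, conjTranspose_conjTranspose, ((hY i).2.1 c).eq,
      Matrix.mul_assoc]
  · have : 1 - T X = ∑ i, (amp (V i))ᴴ * (1 - T (Y i)) * amp (V i) := by
      rw [h1, ← h2, ← Finset.sum_sub_distrib]
      refine Finset.sum_congr rfl fun i _ => ?_
      rw [Matrix.mul_sub, Matrix.sub_mul, Matrix.mul_one]
    rw [this]
    exact posSemidef_sum _ fun i _ => ((hY i).2.2.1).conjTranspose_mul_mul_same _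
  · have : 1 + T X = ∑ i, (amp (V i))ᴴ * (1 + T (Y i)) * amp (V i) := by
      rw [h1, ← h2, ← Finset.sum_add_distrib]
      refine Finset.sum_congr rfl fun i _ => ?_
      rw [Matrix.mul_add, Matrix.add_mul, Matrix.mul_one]
    rw [this]
    exact posSemidef_sum _ fun i _ => ((hY i).2.2.2).conjTranspose_mul_mul_same _

/-- for a Hermitian matrix, `1 ± M ≥ 0` says that `1 - M² ≥ 0` -/
theorem contr_iff {δ : Type} [Fintype δ] [DecidableEq δ] {M : Matrix δ δ ℂ} (hM : M.IsHermitian) :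
    ((1 - M).PosSemidef ∧ (1 + M).PosSemidef) ↔ (1 - M * M).PosSemidef := by
  have hs : (1 - M)ᴴ = 1 - M := by rw [conjTranspose_sub, conjTranspose_one, hM.eq]
  have ha : (1 + M)ᴴ = 1 + M := by rw [conjTranspose_add, conjTranspose_one, hM.eq]
  constructor
  · rintro ⟨h1, h2⟩
    have e : 1 - M * M = (1 / 2 : ℝ) • ((1 + M)ᴴ * (1 - M) * (1 + M) +
        (1 - M)ᴴ * (1 + M) * (1 - M)) := by
      rw [hs, ha]
      have : (1 + M) * (1 - M) * (1 + M) + (1 - M) * (1 + M) * (1 - M) =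
          (2 : ℝ) • (1 - M * M) := by
        rw [two_smul]; noncomm_ring
      rw [this, smul_smul]; norm_num
    rw [e]
    exact ((h1.conjTranspose_mul_mul_same _).add (h2.conjTranspose_mul_mul_same _)).smul
      (by norm_num)
  · intro h
    constructor
    · have e : 1 - M = (1 / 2 : ℝ) • ((1 - M)ᴴ * (1 - M) + (1 - M * M)) := by
        rw [hs]
        have : (1 - M) * (1 - M) + (1 - M * M) = (2 : ℝ) • (1 - M) := by
          rw [two_smul]; noncomm_ring
        rw [this, smul_smul]; norm_num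
      rw [e]
      exact ((posSemidef_conjTranspose_mul_self _).add h).smul (by norm_num)
    · have e : 1 + M = (1 / 2 : ℝ) • ((1 + M)ᴴ * (1 + M) + (1 - M * M)) := by
        rw [ha]
        have : (1 + M) * (1 + M) + (1 - M * M) = (2 : ℝ) • (1 + M) := by
          rw [two_smul]; noncomm_ring
        rw [this, smul_smul]; norm_num
      rw [e]
      exact ((posSemidef_conjTranspose_mul_self _).add h).smul (by norm_num)

theorem mem_K_iff {n : ℕ} {X : Tup 9 (Fin n)} :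
    X ∈ K n ↔ (∀ c, (X c).IsHermitian) ∧ (1 - T X * T X).PosSemidef := by
  constructor
  · rintro ⟨h1, h2, h3⟩
    exact ⟨h1, (contr_iff (T_herm h1)).1 ⟨h2, h3⟩⟩
  · rintro ⟨h1, h2⟩
    obtain ⟨h3, h4⟩ := (contr_iff (T_herm h1)).2 h2
    exact ⟨h1, h3, h4⟩

end

end Pool.Agent.X109.MC
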