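import Pool.Agent.X109.MC.Tmap

set_option autoImplicit false

namespace Pool.Agent.X109.MC

open Matrix Kronecker ComplexOrder

noncomputable section

theorem isClosed_psd {δ : Type} [Fintype δ] : IsClosed {M : Matrix δ δ ℂ | M.PosSemidef} := by
  have : {M : Matrix δ δ ℂ | M.PosSemidef} = {M | Mᴴ = M} ∩
      ⋂ x : δ → ℂ, {M | 0 ≤ star x ⬝ᵥ (M *ᵥ x)} := by
    ext M
    simp only [Set.mem_ofPred_eq, Set.mem_inter_iff, Set.mem_iInter]
    exact posSemidef_iff_dotProduct_mulVec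
  rw [this]
  refine IsClosed.inter (isClosed_eq (by fun_prop) continuous_id) (isClosed_iInter fun x => ?_)
  refine isClosed_le continuous_const ?_
  exact Continuous.dotProduct continuous_const (Continuous.matrix_mulVec continuous_id
    continuous_const)

theorem continuous_T {n : ℕ} : Continuous (T : Tup 9 (Fin n) → _) := by
  refine continuous_pi fun p => continuous_pi fun q => ?_
  obtain ⟨j, a⟩ := p
  obtain ⟨k, b⟩ := q
  simp only [T_apply]
  fun_prop

theorem K_closed (n : ℕ) : IsClosed (K n) := by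
  have : K n = (⋂ c, {X | (X c)ᴴ = X c}) ∩
      ((fun X => 1 - T X) ⁻¹' {M | M.PosSemidef} ∩ (fun X => 1 + T X) ⁻¹' {M | M.PosSemidef}) := by
    ext X
    simp only [K, Set.mem_ofPred_eq, Set.mem_inter_iff, Set.mem_iInter, Set.mem_preimage,
      IsHermitian]
  rw [this]
  refine IsClosed.inter (isClosed_iInter fun c => isClosed_eq ?_ ?_) (IsClosed.inter
    (isClosed_psd.preimage ?_) (isClosed_psd.preimage ?_))
  · exact Continuous.matrix_conjTranspose (continuous_apply c)
  · exact continuous_apply c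
  · exact continuous_const.sub continuous_T
  · exact continuous_const.add continuous_T

theorem entry_le {δ : Type} [Fintype δ] [DecidableEq δ] {M : Matrix δ δ ℂ} (hM : M.IsHermitian)
    (h : (1 - M * M).PosSemidef) (p q : δ) : ‖M p q‖ ≤ 1 := by
  have h1 := h.diag_nonneg (i := p)
  rw [Matrix.sub_apply, one_apply_eq, Matrix.mul_apply] at h1
  have h2 : ∑ r, M p r * M r p = ((∑ r, ‖M p r‖ ^ 2 : ℝ) : ℂ) := by
    push_cast
    refine Finset.sum_congr rfl fun r _ => ?_
    rw [← hM.apply r p, Complex.star_def, Complex.mul_conj, Complex.normSq_eq_norm_sq]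
    push_cast; rfl
  rw [h2] at h1
  have h3 : (∑ r, ‖M p r‖ ^ 2 : ℝ) ≤ 1 := by
    have := (Complex.le_def.1 h1).1
    rw [Complex.sub_re, Complex.one_re, Complex.ofReal_re, Complex.zero_re] at this
    linarith
  have h4 : ‖M p q‖ ^ 2 ≤ ∑ r, ‖M p r‖ ^ 2 :=
    Finset.single_le_sum (f := fun r => ‖M p r‖ ^ 2) (fun r _ => by positivity) (Finset.mem_univ q)
  nlinarith [norm_nonneg (M p q)]

theorem K_bounded (n : ℕ) : ∃ C : ℝ, ∀ X ∈ K n, ∀ j a b, ‖X j a b‖ ≤ C := by
  refine ⟨2, fun X hX c a b => ?_⟩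
  obtain ⟨h1, h2⟩ := mem_K_iff.1 hX
  have h3 := entry_le (T_herm h1) h2
  obtain ⟨⟨j, k⟩, rfl⟩ := f.surjective c
  have e : X (f (j, k)) a b = star ω * T X (j, a) (k, b) + ω * T X (k, a) (j, b) := by
    conv_lhs => rw [← Linv_T X]
    simp only [Linv, Equiv.symm_apply_apply, of_apply]
  rw [e]
  refine (norm_add_le _ _).trans ?_
  rw [norm_mul, norm_mul, norm_star]
  have := ω_norm
  have a1 := h3 (j, a) (k, b)
  have a2 := h3 (k, a) (j, b)
  nlinarith [norm_nonneg ω, norm_nonneg (T X (j, a) (k, b)), norm_nonneg (T X (k, a) (j, b))]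

theorem K_compactConvex : IsCompactConvex K :=
  ⟨fun _ _ h => h.1, fun n _ => K_convex n, K_closed, K_bounded⟩

/-! ### `K` is a free spectrahedron -/

theorem B_herm (c : Fin 9) : (B c).IsHermitian := by
  ext j k
  simp only [B, conjTranspose_apply, of_apply, star_add]
  split_ifs <;> simp [add_comm]

def A (c : Fin 9) : Matrix (Fin 6) (Fin 6) ℂ :=
  (fromBlocks (B c) 0 0 (-B c)).submatrix (finSumFinEquiv (m := 3) (n := 3)).symm
    (finSumFinEquiv (m := 3) (n := 3)).symm

theorem psd_blocks {δ ε : Type} [Fintype δ] [Fintype ε] [DecidableEq δ] [DecidableEq ε]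
    (P : Matrix δ δ ℂ) (Q : Matrix ε ε ℂ) :
    (fromBlocks P 0 0 Q).PosSemidef ↔ P.PosSemidef ∧ Q.PosSemidef := by
  constructor
  · intro h
    exact ⟨h.submatrix Sum.inl, h.submatrix Sum.inr⟩
  · rintro ⟨hP, hQ⟩
    have e : fromBlocks P 0 0 Q = (fromRows 1 0 : Matrix (δ ⊕ ε) δ ℂ) * P *
        (fromRows 1 0 : Matrix (δ ⊕ ε) δ ℂ)ᴴ + (fromRows 0 1 : Matrix (δ ⊕ ε) ε ℂ) * Q *
        (fromRows 0 1 : Matrix (δ ⊕ ε) ε ℂ)ᴴ := by
      ext (i | i) (j | j) <;>
      simp [fromRows_mul, conjTranspose_fromRows_eq_fromCols_conjTranspose]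
    rw [e]
    exact (hP.mul_mul_conjTranspose_same _).add (hQ.mul_mul_conjTranspose_same _)

theorem K_spec (n : ℕ) : K n = spec A n := by
  ext X
  unfold K spec
  refine and_congr_right fun _ => ?_
  rw [← psd_blocks]
  let g : (Fin 3 × Fin n) ⊕ (Fin 3 × Fin n) ≃ Fin 6 × Fin n :=
    (Equiv.sumProdDistrib _ _ _).symm.trans
      (Equiv.prodCongr (finSumFinEquiv (m := 3) (n := 3)) (Equiv.refl _))
  rw [← posSemidef_submatrix_equiv g]
  have e : (1 - ∑ j, A j ⊗ₖ X j).submatrix g g = fromBlocks (1 - T X) 0 0 (1 + T X) := by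
    ext (⟨i, a⟩ | ⟨i, a⟩) (⟨j, b⟩ | ⟨j, b⟩)
    · simp [g, A, T, Matrix.sum_apply, kroneckerMap_apply, one_apply]
    · simp [g, A, T, Matrix.sum_apply, kroneckerMap_apply, one_apply]
    · simp [g, A, T, Matrix.sum_apply, kroneckerMap_apply, one_apply]
    · simp [g, A, T, Matrix.sum_apply, kroneckerMap_apply, one_apply]
  rw [e]

theorem A_herm (c : Fin 9) : (A c).IsHermitian := by
  unfold A
  refine IsHermitian.submatrix ?_ _
  rw [IsHermitian, fromBlocks_conjTranspose, (B_herm c).eq, conjTranspose_neg, (B_herm c).eq]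
  simp

end

end Pool.Agent.X109.MC
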